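import Mathlib
import Pool.Agent.Helper75_OmegaForms.Forms

/-!
# Averages along `Ω (P (m, n))` need not converge when `P` is a proper power

For every exponent `g ≥ 2` we exhibit one uniquely ergodic system `(X, T)`, one continuous function
`F` and one point `x` such that the averages of the problem diverge for every binary form `P` of the
shape `P = c * Q ^ g` with `Q` a nonconstant form (for instance `x ^ 2` and `(x ^ 2 + y ^ 2) ^ 2`
for `g = 2`).
-/

open MeasureTheory Filter Topology

namespace Pool.Agent.Results.MP_d352c9_an.ProperPowers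

/-- `T` has exactly one invariant Borel probability measure. -/
def UniquelyErgodic {X : Type*} [MeasurableSpace X] (T : X → X) : Prop :=
  ∃! μ : ProbabilityMeasure X, MeasurePreserving T (μ : Measure X) (μ : Measure X)

/-- `P` is a homogeneous integer polynomial in two variables whose value at every pair of positive
integers is a positive integer. -/
def PositiveForm (P : MvPolynomial (Fin 2) ℤ) : Prop :=
  (∃ k : ℕ, P.IsHomogeneous k) ∧
    ∀ m n : ℕ, 0 < m → 0 < n → 0 < MvPolynomial.eval ![(m : ℤ), (n : ℤ)] P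

/-- The averages `A_N(x)` of the problem: the mean of `F (T ^ Ω(P(m, n)) x)` over
`1 ≤ m, n ≤ N`. -/
noncomputable def A {X : Type*} (T : X → X) (F : X → ℂ) (P : MvPolynomial (Fin 2) ℤ) (x : X)
    (N : ℕ) : ℂ :=
  (∑ m ∈ Finset.Icc 1 N, ∑ n ∈ Finset.Icc 1 N,
    F (T^[ArithmeticFunction.cardFactors (MvPolynomial.eval ![(m : ℤ), (n : ℤ)] P).toNat] x)) /
      (N : ℂ) ^ 2

open Pool.Agent.Helper75_OmegaForms in
/-- For every `g ≥ 2` there are a uniquely ergodic system `(X, T)` on a compact metric space, a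
continuous function `F` and a point `x` such that for every positive form `P` which is a constant
times the `g`-th power of a nonconstant form `Q`, the averages `A_N(x)` do not converge. -/
theorem result (g : ℕ) (hg : 2 ≤ g) :
    ∃ (X : Type) (_ : MetricSpace X) (_ : CompactSpace X) (_ : MeasurableSpace X)
      (_ : BorelSpace X) (T : X → X) (F : C(X, ℂ)) (x : X),
      Continuous T ∧ UniquelyErgodic T ∧
        ∀ P : MvPolynomial (Fin 2) ℤ, PositiveForm P →
          (∃ (c : ℤ) (Q : MvPolynomial (Fin 2) ℤ) (d : ℕ), 0 < d ∧ Q.IsHomogeneous d ∧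
            P = MvPolynomial.C c * Q ^ g) →
          ¬ ∃ L : ℂ, Tendsto (A T F P x) atTop (𝓝 L) := by
  classical
  have hNe : NeZero g := ⟨by omega⟩
  -- the family of all these forms
  let Fam : Type := {P : MvPolynomial (Fin 2) ℤ // PositiveForm P ∧
    ∃ (c : ℤ) (Q : MvPolynomial (Fin 2) ℤ) (d : ℕ), 0 < d ∧ Q.IsHomogeneous d ∧
            P = MvPolynomial.C c * Q ^ g}
  have hcount : Countable (MvPolynomial (Fin 2) ℤ) := by
    rw [← Cardinal.mk_le_aleph0_iff]
    refine (MvPolynomial.cardinalMk_le_max).trans ?_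
    simp
  have hFamC : Countable Fam := Subtype.countable
  have hFamN : Nonempty Fam := by
    refine ⟨⟨MvPolynomial.X 0 ^ g, ⟨⟨g, ?_⟩, ?_⟩, 1, MvPolynomial.X 0, 1, one_pos,
      MvPolynomial.isHomogeneous_X _ _, by simp⟩⟩
    · simpa using (MvPolynomial.isHomogeneous_X ℤ (0 : Fin 2)).pow g
    · intro m n hm hn
      simp only [map_pow, MvPolynomial.eval_X, Matrix.cons_val_zero]
      positivity
  obtain ⟨e, he⟩ := exists_surjective_nat Fam
  let h : ℕ → ℕ → ℕ → ℕ := fun i m n =>
    ArithmeticFunction.cardFactors (MvPolynomial.eval ![(m : ℤ), (n : ℤ)] (e i).1).toNat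
  have hkey : ∀ i, Escapes (h i) ∧ ∃ r : ZMod g, ∀ m n : ℕ, 1 ≤ m → 1 ≤ n →
      (h i m n : ZMod g) = r := by
    intro i
    obtain ⟨⟨_, hpos⟩, c, Q, d, hd, hQ, hP⟩ := (e i).2
    have hval : ∀ m n : ℕ, MvPolynomial.eval ![(m : ℤ), (n : ℤ)] (e i).1 =
        c * (MvPolynomial.eval ![(m : ℤ), (n : ℤ)] Q) ^ g := by
      intro m n
      rw [hP]
      simp
    have hQ0 : ∀ m n : ℕ, 0 < m → 0 < n → MvPolynomial.eval ![(m : ℤ), (n : ℤ)] Q ≠ 0 := by
      intro m n hm hn h0
      have := hpos m n hm hn
      rw [hval, h0, zero_pow (by omega), mul_zero] at this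
      exact lt_irrefl _ this
    have hc0 : c ≠ 0 := by
      rintro rfl
      have := hpos 1 1 one_pos one_pos
      rw [hval, zero_mul] at this
      exact lt_irrefl _ this
    have hOm : ∀ m n : ℕ, 0 < m → 0 < n → h i m n = ArithmeticFunction.cardFactors c.natAbs +
        g * ArithmeticFunction.cardFactors (MvPolynomial.eval ![(m : ℤ), (n : ℤ)] Q).natAbs := by
      intro m n hm hn
      show ArithmeticFunction.cardFactors (MvPolynomial.eval ![(m : ℤ), (n : ℤ)] (e i).1).toNat = _
      have h1 : (MvPolynomial.eval ![(m : ℤ), (n : ℤ)] (e i).1).toNat =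
          (MvPolynomial.eval ![(m : ℤ), (n : ℤ)] (e i).1).natAbs := by
        have := hpos m n hm hn
        omega
      rw [h1, hval, Int.natAbs_mul, Int.natAbs_pow,
        ArithmeticFunction.cardFactors_mul (Int.natAbs_ne_zero.mpr hc0)
          (pow_ne_zero _ (Int.natAbs_ne_zero.mpr (hQ0 m n hm hn))),
        ArithmeticFunction.cardFactors_pow]
    refine ⟨?_, (ArithmeticFunction.cardFactors c.natAbs : ZMod g), ?_⟩
    · refine escapes_mono _ _ (escapes_form Q d hd hQ hQ0) ?_
      intro m n hm hn
      rw [hOm m n hm hn]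
      have h2 : ArithmeticFunction.cardFactors (MvPolynomial.eval ![(m : ℤ), (n : ℤ)] Q).natAbs ≤
          g * ArithmeticFunction.cardFactors (MvPolynomial.eval ![(m : ℤ), (n : ℤ)] Q).natAbs :=
        Nat.le_mul_of_pos_left _ (by omega)
      omega
    · intro m n hm hn
      rw [hOm m n hm hn]
      push_cast
      simp
  let hE : ∀ i, Escapes (h i) := fun i => (hkey i).1
  refine ⟨Helper75_OmegaForms.X g, TopologicalSpace.metrizableSpaceMetric _, inferInstance,
    inferInstance, inferInstance, Helper75_OmegaForms.T g, F0 g, x0 hE g,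
    continuous_T g, existsUnique_invariant g, ?_⟩
  intro P hP hPQ
  obtain ⟨i, hi⟩ := he ⟨P, hP, hPQ⟩
  obtain ⟨r, hr⟩ := (hkey i).2
  have hdiv := avg_diverges hE g hg i r hr
  have hfun : A (Helper75_OmegaForms.T g) (F0 g) P (x0 hE g) =
      fun N => avg (Helper75_OmegaForms.T g) (F0 g) (x0 hE g) (h i) N := by
    funext N
    simp only [A, avg, h, hi]
  rw [hfun]
  exact hdiv

end Pool.Agent.Results.MP_d352c9_an.ProperPowers
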